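import Pool.Agent.Helper85.UV.TraceSieve
import Pool.Agent.Results.MP_96e181_an.DifferencesOrSums

set_option autoImplicit false

/-! Differences or longer sums as multipliers, for the tracial states of the group algebra of
`ℤ² ⋉ ℤ[1/6]`. -/

namespace Pool.Agent.Helper12.TR
open Finset Filter Topology MeasureTheory
open scoped ComplexOrder
open Pool.Agent.W763.Tr
open Pool.Agent.TH654.FC
open Pool.Agent.TH463.UQ (finite_or_atomless)

section

variable {G : Subgroup (Equiv.Perm ℚ)}

/-- Multiplication by `m` on the translations takes the trace `ψ` to the trace `φ`. -/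
def Rep (ψ φ : G → ℂ) (m : ℤ) : Prop :=
  ∀ g : G, (∃ r : ℚ, ∀ x : ℚ, (g : Equiv.Perm ℚ) x = x + r) → ψ (g ^ m) = φ g

variable {τ τ' : ℤ → G} {φ ψ : G → ℂ} {S6 S6' : G} {μ μ' : Measure UnitAddCircle}

lemma tau_unique (D : Data G τ φ S6 μ) (D' : Data G τ' ψ S6' μ') (n : ℤ) : τ' n = τ n := by
  apply Subtype.ext
  apply Equiv.ext
  intro x
  rw [D.hτ, D'.hτ]

lemma tau_zpow (D : Data G τ φ S6 μ) (n m : ℤ) : τ n ^ m = τ (m * n) := by
  have hnat : ∀ k : ℕ, τ n ^ k = τ (k * n) := by
    intro k
    induction k with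
    | zero =>
      apply Subtype.ext
      apply Equiv.ext
      intro x
      simp [D.hτ]
    | succ k ih =>
      rw [pow_succ, ih]
      apply Subtype.ext
      apply Equiv.ext
      intro x
      rw [Subgroup.coe_mul, Equiv.Perm.mul_apply, D.hτ, D.hτ, D.hτ]
      push_cast; ring
  obtain ⟨k, rfl | rfl⟩ := m.eq_nat_or_neg
  · rw [zpow_natCast, hnat]
  · rw [zpow_neg, zpow_natCast, hnat]
    rw [inv_eq_iff_mul_eq_one]
    apply Subtype.ext
    apply Equiv.ext
    intro x
    rw [Subgroup.coe_mul, Equiv.Perm.mul_apply, D.hτ, D.hτ]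
    simp

lemma meas_smul (m : ℤ) : Measurable fun x : UnitAddCircle => m • x := by fun_prop

/-- reproduction of the trace is reproduction of the measure -/
lemma map_of_rep (D : Data G τ φ S6 μ) (D' : Data G τ' ψ S6' μ') {m : ℤ} (h : Rep ψ φ m) :
    μ'.map (fun x : UnitAddCircle => m • x) = μ := by
  have := D.prob
  have := D'.prob
  have : IsProbabilityMeasure (μ'.map (fun x : UnitAddCircle => m • x)) :=
    Measure.isProbabilityMeasure_map (meas_smul m).aemeasurable
  refine Pool.Agent.R202.ext_fourier fun n => ?_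
  rw [integral_map (meas_smul m).aemeasurable
    (by fun_prop : Continuous fun x : UnitAddCircle => (fourier n x : ℂ)).aestronglyMeasurable, D.hμ]
  have h1 : ∀ x : UnitAddCircle, (fourier n (m • x) : ℂ) = fourier (m * n) x := by
    intro x
    rw [fourier_apply, fourier_apply, smul_smul, mul_comm]
  simp_rw [h1]
  rw [D'.hμ, ← tau_zpow D', tau_unique D D', h (τ n) ⟨n, D.hτ n⟩]

lemma not_volume (D : Data G τ φ S6 μ) (hreg : φ ≠ Set.indicator ({1} : Set G) (fun _ => (1 : ℂ))) :
    μ ≠ volume := by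
  intro hv
  apply hreg
  have hz' : ∀ n : ℤ, n ≠ 0 → φ (τ n) = 0 := by
    intro n hn
    rw [← D.hμ n, hv]
    exact Pool.Agent.H769R3.integral_fourier_volume hn
  funext g
  by_cases hg : g = 1
  · rw [hg, D.h1]
    simp
  · rw [eq_regular D.hτ D.h1 D.hcl D.hpd S6 D.hS6 D.hform hz' g hg]
    simp [hg]

end

end Pool.Agent.Helper12.TR
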