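import Pool.Agent.Helper85.UV.TraceSieve
import Pool.Agent.Helper99.AE.Primes
import Pool.Agent.Helper99.AE.Family

set_option autoImplicit false

/-! Sequences of multipliers which are universal for the measures on the circle are universal for the
extreme tracial states of the group algebra of `ℤ² ⋉ ℤ[1/6]`. -/

namespace Pool.Agent.Helper12.TR
open Finset Filter Topology MeasureTheory
open scoped ComplexOrder
open Pool.Agent.W763.Tr
open Pool.Agent.TH654.FC
open Pool.Agent.TH463.UQ (finite_or_atomless)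

/-- Let `G` be the group generated by `x ↦ 2 x`, `x ↦ 3 x`, `x ↦ x + 1` on `ℚ`. The multipliers `c n`,
`n ∈ T`, are universal for the extreme tracial states `φ` of `C*(G)`:
(1) `φ` is conditionally finite-dimensional, or for every translation `g ≠ 1` in `G` and all
`x, y ∈ G` the values `φ (x * g ^ c(n) * y)` tend to zero as `n → ∞` in `T`;
(2) if for infinitely many `n ∈ T` one has `φ (g ^ c(n)) = φ g` for all translations `g ∈ G`, then `φ`
is the regular trace or conditionally finite-dimensional. -/
def TraceUniversal (c : ℕ → ℕ) (T : Set ℕ) : Prop :=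
  ∀ (s2 s3 t : Equiv.Perm ℚ), (∀ x : ℚ, s2 x = 2 * x) → (∀ x : ℚ, s3 x = 3 * x) →
    (∀ x : ℚ, t x = x + 1) →
    ∀ (G : Subgroup (Equiv.Perm ℚ)), G = Subgroup.closure {s2, s3, t} → ∀ φ : G → ℂ,
      φ ∈ Set.extremePoints ℝ {ψ : G → ℂ | ψ 1 = 1 ∧ (∀ g h : G, ψ (h * g * h⁻¹) = ψ g) ∧
        ∀ (s : Finset G) (c : G → ℂ), 0 ≤ ∑ i ∈ s, ∑ j ∈ s, star (c j) * c i * ψ (j⁻¹ * i)} →
      (FiniteDimensional ℂ (Submodule.span ℂ {f : G → ℂ | ∃ a : G,
          (∃ r : ℚ, ∀ x : ℚ, (a : Equiv.Perm ℚ) x = x + r) ∧ f = fun x => φ (a * x)}) ∨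
        ∀ x y g : G, g ≠ 1 → (∃ r : ℚ, ∀ z : ℚ, (g : Equiv.Perm ℚ) z = z + r) →
          Tendsto (fun n : ℕ => φ (x * g ^ c n * y)) (atTop ⊓ 𝓟 T) (𝓝 0)) ∧
      ∀ S : Set ℕ, S ⊆ T → S.Infinite →
        (∀ n ∈ S, ∀ g : G, (∃ r : ℚ, ∀ x : ℚ, (g : Equiv.Perm ℚ) x = x + r) →
          φ (g ^ c n) = φ g) →
        φ = Set.indicator ({1} : Set G) (fun _ => (1 : ℂ)) ∨
          FiniteDimensional ℂ (Submodule.span ℂ {f : G → ℂ | ∃ a : G,
            (∃ r : ℚ, ∀ x : ℚ, (a : Equiv.Perm ℚ) x = x + r) ∧ f = fun x => φ (a * x)})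

/-- Fourier coefficients from weak convergence of the images of the absolutely continuous measures. -/
lemma coeff_of_mixing {ι : Type*} {l : Filter ι} {c : ι → ℕ} {μ : Measure UnitAddCircle}
    [IsProbabilityMeasure μ]
    (h : ∀ ν : Measure UnitAddCircle, IsProbabilityMeasure ν → ν ≪ μ → ∀ f : C(UnitAddCircle, ℝ),
      Tendsto (fun n => ∫ x, f (c n • x) ∂ν) l (𝓝 (∫ x, f x)))
    (m t : ℤ) (hm : m ≠ 0) :
    Tendsto (fun n => ∫ x, (fourier (m * (c n : ℤ) + t) x : ℂ) ∂μ) l (𝓝 0) := by
  -- real test functions with real densities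
  have hvol : IsProbabilityMeasure (volume : Measure UnitAddCircle) := ⟨UnitAddCircle.measure_univ⟩
  have key : ∀ (f w : C(UnitAddCircle, ℝ)), (∀ x, ‖w x‖ ≤ 1) → ∫ x, f x = 0 →
      Tendsto (fun n => ∫ x, f (c n • x) * w x ∂μ) l (𝓝 0) := by
    intro f w hw hf
    -- the density 2 + w
    set Z : ℝ := ∫ x, (2 + w x) ∂μ with hZ
    have hcw : Continuous fun x => 2 + w x := by fun_prop
    have hintw : Integrable (fun x => 2 + w x) μ :=
      hcw.integrable_of_hasCompactSupport (HasCompactSupport.of_compactSpace _)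
    have hpos : ∀ x, 1 ≤ 2 + w x := by
      intro x
      have h1 := (abs_le.1 (hw x)).1
      linarith
    have hZ1 : 1 ≤ Z := by
      have h1 : ∫ _x, (1 : ℝ) ∂μ ≤ Z := integral_mono (integrable_const _) hintw hpos
      simpa using h1
    have hZ0 : 0 < Z := by linarith
    set ν : Measure UnitAddCircle := μ.withDensity fun x => ENNReal.ofReal ((2 + w x) / Z) with hν
    have hmeas : Measurable fun x => (2 + w x) / Z := (hcw.div_const Z).measurable
    have hνp : IsProbabilityMeasure ν := by
      constructor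
      rw [hν, withDensity_apply _ MeasurableSet.univ, Measure.restrict_univ,
        ← ofReal_integral_eq_lintegral_ofReal (hintw.div_const Z)
          (Eventually.of_forall fun x => by have := hpos x; positivity), integral_div, ← hZ,
        div_self hZ0.ne', ENNReal.ofReal_one]
    have hac : ν ≪ μ := withDensity_absolutelyContinuous _ _
    have hval : ∀ n, ∫ x, f (c n • x) ∂ν = (2 * ∫ x, f (c n • x) ∂μ + ∫ x, f (c n • x) * w x ∂μ) / Z := by
      intro n
      have hcf : Continuous fun x : UnitAddCircle => f (c n • x) := by fun_prop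
      have hcfw : Continuous fun x : UnitAddCircle => f (c n • x) * w x := by fun_prop
      rw [hν, integral_withDensity_eq_integral_toReal_smul (hmeas.ennreal_ofReal)
        (Eventually.of_forall fun x => ENNReal.ofReal_lt_top)]
      have h1 : ∀ x, (ENNReal.ofReal ((2 + w x) / Z)).toReal • f (c n • x) =
          (2 * f (c n • x) + f (c n • x) * w x) / Z := by
        intro x
        have h2 := hpos x
        rw [ENNReal.toReal_ofReal (by positivity), smul_eq_mul]
        ring
      simp_rw [h1]
      rw [integral_div, integral_add, integral_const_mul]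
      · exact (hcf.integrable_of_hasCompactSupport (HasCompactSupport.of_compactSpace _)).const_mul 2
      · exact hcfw.integrable_of_hasCompactSupport (HasCompactSupport.of_compactSpace _)
    have h1 := h ν hνp hac f
    have h2 := h μ inferInstance Measure.AbsolutelyContinuous.rfl f
    rw [hf] at h1 h2
    have h3 := (h1.mul_const Z).sub (h2.const_mul 2)
    rw [zero_mul, mul_zero, sub_zero] at h3
    refine h3.congr fun n => ?_
    rw [hval n, div_mul_cancel₀ _ hZ0.ne']
    ring
  -- the four combinations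
  have hfm : Continuous fun x : UnitAddCircle => (fourier m x : ℂ) := by fun_prop
  have hft : Continuous fun x : UnitAddCircle => (fourier t x : ℂ) := by fun_prop
  have hint : Integrable (fun x : UnitAddCircle => (fourier m x : ℂ)) volume :=
    hfm.integrable_of_hasCompactSupport (HasCompactSupport.of_compactSpace _)
  have hI : ∫ x : UnitAddCircle, (fourier m x : ℂ) = 0 := Pool.Agent.H769R3.integral_fourier_volume hm
  have e1 : ∫ x : UnitAddCircle, (fourier m x : ℂ).re = 0 := by
    have h4 := integral_re hint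
    simp only [RCLike.re_to_complex] at h4
    rw [h4, hI, Complex.zero_re]
  have e2 : ∫ x : UnitAddCircle, (fourier m x : ℂ).im = 0 := by
    have h4 := integral_im hint
    simp only [RCLike.im_to_complex] at h4
    rw [h4, hI, Complex.zero_im]
  have hn : ∀ x : UnitAddCircle, ‖(fourier t x : ℂ)‖ = 1 := fun x => by
    rw [fourier_apply]; exact Circle.norm_coe _
  let A : C(UnitAddCircle, ℝ) := ⟨fun x => (fourier m x : ℂ).re, Complex.continuous_re.comp hfm⟩
  let B : C(UnitAddCircle, ℝ) := ⟨fun x => (fourier m x : ℂ).im, Complex.continuous_im.comp hfm⟩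
  let U : C(UnitAddCircle, ℝ) := ⟨fun x => (fourier t x : ℂ).re, Complex.continuous_re.comp hft⟩
  let V : C(UnitAddCircle, ℝ) := ⟨fun x => (fourier t x : ℂ).im, Complex.continuous_im.comp hft⟩
  have hU : ∀ x, ‖U x‖ ≤ 1 := fun x => (Complex.abs_re_le_norm _).trans (hn x).le
  have hV : ∀ x, ‖V x‖ ≤ 1 := fun x => (Complex.abs_im_le_norm _).trans (hn x).le
  have k1 := key A U hU e1
  have k2 := key A V hV e1
  have k3 := key B U hU e2
  have k4 := key B V hV e2
  have hre := k1.sub k4
  have him := k2.add k3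
  rw [sub_zero] at hre
  rw [add_zero] at him
  have hfin := ((Complex.continuous_ofReal.tendsto 0).comp hre).add
    (((Complex.continuous_ofReal.tendsto 0).comp him).mul_const Complex.I)
  simp only [Complex.ofReal_zero, zero_mul, add_zero] at hfin
  refine hfin.congr fun n => ?_
  have hc : ∀ (F W : C(UnitAddCircle, ℝ)), Integrable (fun x => F (c n • x) * W x) μ := fun F W =>
    (by fun_prop : Continuous fun x : UnitAddCircle =>
      F (c n • x) * W x).integrable_of_hasCompactSupport (HasCompactSupport.of_compactSpace _)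
  simp only [Function.comp_apply]
  rw [← integral_sub (hc A U) (hc B V), ← integral_add (hc A V) (hc B U),
    ← integral_complex_ofReal, ← integral_complex_ofReal, ← integral_mul_const, ← integral_add]
  · refine integral_congr_ae (Eventually.of_forall fun x => ?_)
    have h5 : (fourier (m * (c n : ℤ) + t) x : ℂ) = fourier m (c n • x) * fourier t x := by
      rw [fourier_apply, fourier_apply, fourier_apply, ← Circle.coe_mul, ← AddCircle.toCircle_add,
        add_smul, mul_smul, natCast_zsmul]
    show (((A (c n • x) * U x - B (c n • x) * V x : ℝ)) : ℂ) +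
      ((A (c n • x) * V x + B (c n • x) * U x : ℝ) : ℂ) * Complex.I = fourier (m * (c n : ℤ) + t) x
    rw [h5]
    apply Complex.ext
    · simp [A, B, U, V]
    · simp [A, B, U, V]
  · exact ((hc A U).sub (hc B V)).ofReal
  · exact (((hc A V).add (hc B U)).ofReal).mul_const _

/-- **From measures to traces.** -/
theorem trace_of_universal {c : ℕ → ℕ} {T : Set ℕ} (h : Pool.Agent.Helper99.AE.Universal c T) :
    TraceUniversal c T := by
  intro s2 s3 t hs2 hs3 ht G hG φ hext
  obtain ⟨hφ1, hcl, hpd⟩ := hext.1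
  obtain ⟨τ, S6, μ, D⟩ := data_of hs2 hs3 ht hG hφ1 hcl hpd
  have hprob := D.prob
  have hkey : (∀ x, μ {x} = 0) → ∀ x y g : G, g ≠ 1 →
      (∃ r : ℚ, ∀ z : ℚ, (g : Equiv.Perm ℚ) z = z + r) →
      Tendsto (fun n : ℕ => φ (x * g ^ c n * y)) (atTop ⊓ 𝓟 T) (𝓝 0) := by
    intro hat x y g hg1 hg
    have h1 := Pool.Agent.Helper85.UV.trace_mixing D hat (l := atTop ⊓ 𝓟 T) (N := fun n => (c n : ℤ))
      (fun m t hm => coeff_of_mixing (h 2 le_rfl μ hprob D.mp2 hat).1 m t hm) x y g hg1 hg
    simpa only [zpow_natCast] using h1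
  rcases finite_or_atomless D hext with hfd | hat
  · exact ⟨Or.inl hfd, fun _ _ _ _ => Or.inr hfd⟩
  · refine ⟨Or.inr (hkey hat), fun S hS hSi hinv => Or.inl ?_⟩
    have hne : (atTop ⊓ 𝓟 S : Filter ℕ).NeBot := by
      rw [← Nat.cofinite_eq_atTop, ← Filter.frequently_mem_iff_neBot,
        Filter.frequently_cofinite_iff_infinite]
      exact hSi
    have hle : (atTop ⊓ 𝓟 S : Filter ℕ) ≤ atTop ⊓ 𝓟 T := inf_le_inf_left _ (principal_mono.2 hS)
    exact Pool.Agent.Helper85.UV.trace_regular D (l := atTop ⊓ 𝓟 S) (N := fun n => (c n : ℤ))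
      (fun x y g h1 h2 => by
        simpa only [zpow_natCast] using (hkey hat x y g h1 h2).mono_left hle)
      (eventually_inf_principal.2 (Eventually.of_forall fun n hn g hg => by
        simpa only [zpow_natCast] using hinv n hn g hg))

end Pool.Agent.Helper12.TR
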