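import Pool.Agent.Helper12.TR.Mult

set_option autoImplicit false

/-! Rigid sequences of multipliers for the extreme tracial states of the group algebra of
`ℤ² ⋉ ℤ[1/6]`. -/

open MeasureTheory Filter Topology
open scoped ComplexOrder

namespace Pool.Agent.Helper12.TR

/-- The multiplications by the `c n`, `n ∈ M`, are enough: every extreme tracial state `φ` of the
group algebra of the group `G` generated by `x ↦ 2 x`, `x ↦ 3 x`, `x ↦ x + 1` on `ℚ` such that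
`φ (g ^ c(n)) = φ g` for all translations `g ∈ G` and all `n ∈ M` is the regular trace or
conditionally finite-dimensional. -/
def Rigid (c : ℕ → ℕ) (M : Set ℕ) : Prop :=
  ∀ (s2 s3 t : Equiv.Perm ℚ), (∀ x : ℚ, s2 x = 2 * x) → (∀ x : ℚ, s3 x = 3 * x) →
    (∀ x : ℚ, t x = x + 1) →
    ∀ (G : Subgroup (Equiv.Perm ℚ)), G = Subgroup.closure {s2, s3, t} → ∀ φ : G → ℂ,
      φ ∈ Set.extremePoints ℝ {ψ : G → ℂ | ψ 1 = 1 ∧ (∀ g h : G, ψ (h * g * h⁻¹) = ψ g) ∧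
        ∀ (s : Finset G) (c : G → ℂ), 0 ≤ ∑ i ∈ s, ∑ j ∈ s, star (c j) * c i * ψ (j⁻¹ * i)} →
      (∀ n ∈ M, ∀ g : G, (∃ r : ℚ, ∀ x : ℚ, (g : Equiv.Perm ℚ) x = x + r) → φ (g ^ c n) = φ g) →
      φ = Set.indicator ({1} : Set G) (fun _ => (1 : ℂ)) ∨
        FiniteDimensional ℂ (Submodule.span ℂ {f : G → ℂ | ∃ a : G,
          (∃ r : ℚ, ∀ x : ℚ, (a : Equiv.Perm ℚ) x = x + r) ∧ f = fun x => φ (a * x)})

lemma rigid_of {c : ℕ → ℕ} {M T : Set ℕ} (hTM : T ⊆ M) (hT : T.Infinite) (h : TraceUniversal c T) :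
    Rigid c M := by
  intro s2 s3 t hs2 hs3 ht G hG φ hext hinv
  exact (h s2 s3 t hs2 hs3 ht G hG φ hext).2 T subset_rfl hT fun n hn => hinv n (hTM hn)

/-- from universality along sets of large upper density -/
lemma upper {c : ℕ → ℕ} {M : Set ℕ} (hM : M.Infinite)
    (h : ∀ ε : ℝ, 0 < ε → ∃ T : Set ℕ, T ⊆ M ∧ Helper99.AE.Dens M T ε ∧
      Helper99.AE.Universal c T) :
    Rigid c M ∧ ∀ ε : ℝ, 0 < ε → ∃ T : Set ℕ, T ⊆ M ∧ Helper99.AE.Dens M T ε ∧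
      TraceUniversal c T := by
  refine ⟨?_, fun ε hε => ?_⟩
  · obtain ⟨T, hTM, hT, hU⟩ := h (1 / 2) (by norm_num)
    exact rigid_of hTM (hT.infinite hM (by norm_num)) (trace_of_universal hU)
  · obtain ⟨T, hTM, hT, hU⟩ := h ε hε
    exact ⟨T, hTM, hT, trace_of_universal hU⟩

end Pool.Agent.Helper12.TR
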